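import Mathlib

/-!
# MP_d24a2a_lc : uni-rule programs with internally delocalized odd cycles have stable models

A uni-rule program in which every odd cycle of the atom dependency graph has an internal
delocalizing triple has a stable model (no tightness assumption).
-/

namespace Pool.Agent.Results.MP_d24a2a_lc.UniRuleStable

/-- A ground normal rule `head ← pos, not neg`. -/
structure Rule (α : Type*) where
  head : α
  pos : Finset α
  neg : Finset α

variable {α : Type*}

/-- Every atom is the head of at most one rule. -/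
def UniRule (P : Set (Rule α)) : Prop := ∀ r ∈ P, ∀ r' ∈ P, r.head = r'.head → r = r'

/-- `N` is a model of the reduct `P^M`: rules with a negative body atom in `M` are deleted, and
negative literals are deleted from the others. -/
def IsModel (P : Set (Rule α)) (M N : Set α) : Prop :=
  ∀ r ∈ P, (∀ c ∈ r.neg, c ∉ M) → (∀ b ∈ r.pos, b ∈ N) → r.head ∈ N

/-- `M` is a stable model of `P`: it is the least model of the reduct `P^M`. -/
def Stable (P : Set (Rule α)) (M : Set α) : Prop := IsLeast {N | IsModel P M N} M

/-- Positive arcs of the atom dependency graph. -/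
def PosArc (P : Set (Rule α)) (u v : α) : Prop := ∃ r ∈ P, r.head = v ∧ u ∈ r.pos

/-- Negative arcs of the atom dependency graph. -/
def NegArc (P : Set (Rule α)) (u v : α) : Prop := ∃ r ∈ P, r.head = v ∧ u ∈ r.neg

/-- An elementary directed cycle of length `n ≥ 1` of the atom dependency graph: the pairwise
distinct vertices are `c 0, …, c (n-1)`, and `c n = c 0`; the arc `c i → c (i+1)` used is negative
if `s i` and positive otherwise. -/
structure IsCycle (P : Set (Rule α)) (n : ℕ) (c : ℕ → α) (s : ℕ → Bool) : Prop where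
  pos : 0 < n
  inj : Set.InjOn c (Set.Iio n)
  closed : c n = c 0
  arc : ∀ i < n, if s i then NegArc P (c i) (c (i + 1)) else PosArc P (c i) (c (i + 1))

/-- The cycle is odd: it has an odd number of negative arcs. -/
def IsOdd (n : ℕ) (s : ℕ → Bool) : Prop := Odd ((Finset.range n).filter (fun i => s i = true)).card

/-- The signed arc `(u v, b)` (negative if `b = true`) belongs to the arc set of the cycle. -/
def InCycle (n : ℕ) (c : ℕ → α) (s : ℕ → Bool) (u v : α) (b : Bool) : Prop :=
  ∃ i < n, c i = u ∧ c (i + 1) = v ∧ s i = b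

/-- The vertex `v` lies on the cycle. -/
def OnCycle (n : ℕ) (c : ℕ → α) (v : α) : Prop := ∃ i < n, c i = v

/-- The cycle has an internal delocalizing triple `(u, v₁, v₂)`. -/
def HasInternalTriple (P : Set (Rule α)) (n : ℕ) (c : ℕ → α) (s : ℕ → Bool) : Prop :=
  ∃ u v₁ v₂, v₁ ≠ v₂ ∧ OnCycle n c u ∧ OnCycle n c v₁ ∧ OnCycle n c v₂ ∧
    PosArc P u v₁ ∧ ¬ InCycle n c s u v₁ false ∧ NegArc P u v₂ ∧ ¬ InCycle n c s u v₂ true

/-! ### The associated AND-NOT network -/

/-- The atoms with an infinite backward chain of positive arcs. -/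
def Zer (P : Set (Rule α)) : Set α := {v | ¬ Acc (PosArc P) v}

/-- The local function of the atom `v`. -/
def Ev (P : Set (Rule α)) (y : α → Bool) (v : α) : Prop :=
  v ∉ Zer P ∧ ∃ r ∈ P, r.head = v ∧ (∀ b ∈ r.pos, y b = true) ∧ ∀ c ∈ r.neg, y c = false

/-- A false literal at `v`. -/
def FL (P : Set (Rule α)) (y : α → Bool) (w v : α) : Prop :=
  (PosArc P w v ∧ y w = false) ∨ (NegArc P w v ∧ y w = true)

theorem not_ev {P : Set (Rule α)} {y : α → Bool} {v : α} (h1 : v ∉ Zer P)
    (h2 : ∃ r ∈ P, r.head = v) (h : ¬ Ev P y v) : ∃ w, FL P y w v := by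
  obtain ⟨r, hr, hv⟩ := h2
  by_contra hcon
  push Not at hcon
  apply h
  refine ⟨h1, r, hr, hv, fun b hb => ?_, fun c hc => ?_⟩
  · by_contra hb'
    exact hcon b (Or.inl ⟨⟨r, hr, hv, hb⟩, by simpa using hb'⟩)
  · by_contra hc'
    exact hcon c (Or.inr ⟨⟨r, hr, hv, hc⟩, by simpa using hc'⟩)

theorem ev_no_fl {P : Set (Rule α)} (hP : UniRule P) {y : α → Bool} {v : α} (h : Ev P y v) (w : α) :
    ¬ FL P y w v := by
  obtain ⟨_, r, hr, hv, hb, hc⟩ := h
  rintro (⟨⟨r', hr', hv', hw⟩, hy⟩ | ⟨⟨r', hr', hv', hw⟩, hy⟩)
  · have := hP r hr r' hr' (hv.trans hv'.symm)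
    subst this
    rw [hb w hw] at hy
    exact absurd hy (by decide)
  · have := hP r hr r' hr' (hv.trans hv'.symm)
    subst this
    rw [hc w hw] at hy
    exact absurd hy (by decide)

/-- Stages of failure, starting from `u`. -/
def Fl (P : Set (Rule α)) (R : Finset α) (y : α → Bool) (u : α) : ℕ → Set α
  | 0 => {u}
  | k + 1 => Fl P R y u k ∪ {v | v ∈ R ∧
      ((y v = true ∧ ∃ w ∈ Fl P R y u k, PosArc P w v ∨ NegArc P w v) ∨
       (y v = false ∧ ∀ w, FL P y w v → w ∈ Fl P R y u k))}

theorem fl_mono (P : Set (Rule α)) (R : Finset α) (y : α → Bool) (u : α) :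
    Monotone (Fl P R y u) := by
  refine monotone_nat_of_le_succ fun k => ?_
  exact Set.subset_union_left

theorem fl_sub (P : Set (Rule α)) (R : Finset α) (y : α → Bool) (u : α) (hu : u ∈ R) (k : ℕ) :
    Fl P R y u k ⊆ (R : Set α) := by
  induction k with
  | zero => simpa [Fl] using hu
  | succ k ih =>
    rintro v (hv | hv)
    · exact ih hv
    · exact hv.1

/-- The tight arcs which increase the rank. -/
def T (P : Set (Rule α)) (y : α → Bool) (ρ : α → ℕ) (a b : α) : Prop :=
  ρ a < ρ b ∧ ((PosArc P a b ∧ y a = y b) ∨ (NegArc P a b ∧ y a ≠ y b))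

/-- Paths of tight arcs. -/
def Pth (P : Set (Rule α)) (y : α → Bool) (ρ : α → ℕ) (R : Finset α) (u : α) (k : ℕ) (c : ℕ → α) :
    Prop :=
  c 0 = u ∧ (∀ i ≤ k, c i ∈ R) ∧ ∀ i < k, T P y ρ (c i) (c (i + 1))

theorem pth_rank {P : Set (Rule α)} {y : α → Bool} {ρ : α → ℕ} {R : Finset α} {u : α} {k : ℕ}
    {c : ℕ → α} (h : Pth P y ρ R u k c) {i j : ℕ} (hij : i < j) (hj : j ≤ k) :
    ρ (c i) < ρ (c j) := by
  induction j with
  | zero => omega
  | succ j ih =>
    rcases Nat.lt_succ_iff_lt_or_eq.1 hij with h1 | h1
    · exact (ih h1 (by omega)).trans (h.2.2 j (by omega)).1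
    · subst h1
      exact (h.2.2 i (by omega)).1

/-- A shortcut of a path. -/
theorem shortcut {P : Set (Rule α)} {y : α → Bool} {ρ : α → ℕ} {R : Finset α} {u : α} {k : ℕ}
    {c : ℕ → α} (h : Pth P y ρ R u k c) {i j : ℕ} (hij : i + 1 < j) (hj : j ≤ k)
    (hT : T P y ρ (c i) (c j)) :
    ∃ k' < k, ∃ c', Pth P y ρ R u k' c' ∧ c' k' = c k := by
  refine ⟨k - (j - (i + 1)), by omega, fun t => if t ≤ i then c t else c (t + (j - (i + 1))),
    ⟨?_, ?_, ?_⟩, ?_⟩
  · simp [h.1]
  · intro t ht
    by_cases hti : t ≤ i
    · simpa only [hti, if_true] using h.2.1 t (by omega)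
    · simpa only [hti, if_false] using h.2.1 _ (by omega)
  · intro t ht
    by_cases h1 : t < i
    · have e1 : t ≤ i := h1.le
      have e2 : t + 1 ≤ i := h1
      simp only [e1, e2, if_true]
      exact h.2.2 t (by omega)
    · by_cases h2 : t = i
      · subst h2
        have e1 : t ≤ t := le_rfl
        have e2 : ¬ (t + 1 ≤ t) := by omega
        simp only [e1, e2, if_true, if_false]
        have e3 : t + 1 + (j - (t + 1)) = j := by omega
        rw [e3]
        exact hT
      · have e1 : ¬ (t ≤ i) := by omega
        have e2 : ¬ (t + 1 ≤ i) := by omega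
        simp only [e1, e2, if_false]
        have e3 : t + 1 + (j - (i + 1)) = (t + (j - (i + 1))) + 1 := by omega
        rw [e3]
        exact h.2.2 _ (by omega)
  · have e1 : ¬ (k - (j - (i + 1)) ≤ i) := by omega
    simp only [e1, if_false]
    congr 1
    omega

/-- The parity along a sequence of Boolean values. -/
theorem parity (z : ℕ → Bool) (m : ℕ) :
    Even ((Finset.range m).filter (fun i => decide (z i ≠ z (i + 1)) = true)).card ↔ z m = z 0 := by
  induction m with
  | zero => simp
  | succ m ih =>
    rw [Finset.range_add_one, Finset.filter_insert]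
    by_cases hs : z m = z (m + 1)
    · rw [if_neg (by simpa using hs), ih, hs]
    · rw [if_pos (by simpa using hs), Finset.card_insert_of_notMem (by simp), Nat.even_add_one, ih]
      revert hs
      generalize z m = a1
      generalize z (m + 1) = a2
      generalize z 0 = a3
      revert a1 a2 a3
      decide

section Main

variable [Fintype α] [DecidableEq α]

/-- The fixed point theorem: every assignment of values outside `R` extends to one that satisfies
all local functions on `R`. -/
theorem fixed (P : Set (Rule α)) (hP : UniRule P)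
    (hC : ∀ (n : ℕ) (c : ℕ → α) (s : ℕ → Bool), IsCycle P n c s → IsOdd n s →
      HasInternalTriple P n c s) :
    ∀ (m : ℕ) (R : Finset α), R.card = m → ∀ x : α → Bool, ∃ y : α → Bool,
      (∀ v, v ∉ R → y v = x v) ∧ ∀ v ∈ R, (y v = true ↔ Ev P y v) := by
  classical
  intro m
  induction m using Nat.strong_induction_on with
  | _ m IH =>
  intro R hR x
  rcases R.eq_empty_or_nonempty with hRe | hRn
  · exact ⟨x, fun _ _ => rfl, by simp [hRe]⟩
  -- constant vertices
  by_cases hconst : ∃ v ∈ R, v ∈ Zer P ∨ (¬ ∃ r ∈ P, r.head = v) ∨ ∃ w, w ∉ R ∧ FL P x w v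
  · obtain ⟨v, hv, hvc⟩ := hconst
    obtain ⟨y, hy1, hy2⟩ := IH (R.erase v).card
      (by rw [← hR]; exact Finset.card_lt_card (Finset.erase_ssubset hv)) (R.erase v) rfl
      (Function.update x v false)
    refine ⟨y, fun w hw => ?_, fun w hw => ?_⟩
    · rw [hy1 w (fun h => hw (Finset.mem_of_mem_erase h)), Function.update_of_ne]
      rintro rfl
      exact hw hv
    · by_cases hwv : w = v
      · subst hwv
        have h0 : y w = false := by
          rw [hy1 w (by simp), Function.update_self]
        have h1 : ¬ Ev P y w := by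
          rcases hvc with h' | h' | ⟨a, haR, ha⟩
          · exact fun h => h.1 h'
          · rintro ⟨h, r, hr, hrv, _⟩
            exact h' ⟨r, hr, hrv⟩
          · intro h
            have haw : a ≠ w := fun h => haR (h ▸ hv)
            have hya : y a = x a := by
              rw [hy1 a (fun h => haR (Finset.mem_of_mem_erase h)), Function.update_of_ne haw]
            apply ev_no_fl hP h a
            rcases ha with ⟨h3, h4⟩ | ⟨h3, h4⟩
            · exact Or.inl ⟨h3, by rw [hya, h4]⟩
            · exact Or.inr ⟨h3, by rw [hya, h4]⟩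
        simp [h0, h1]
      · exact hy2 w (Finset.mem_erase.2 ⟨hwv, hw⟩)
  push Not at hconst
  obtain ⟨u, hu⟩ := hRn
  obtain ⟨y, hy1, hy2⟩ := IH (R.erase u).card
    (by rw [← hR]; exact Finset.card_lt_card (Finset.erase_ssubset hu)) (R.erase u) rfl
    (Function.update x u true)
  have hyu : y u = true := by rw [hy1 u (by simp), Function.update_self]
  have hyo : ∀ w, w ∉ R → y w = x w := by
    intro w hw
    rw [hy1 w (fun h => hw (Finset.mem_of_mem_erase h)), Function.update_of_ne]
    rintro rfl
    exact hw hu
  have hyR : ∀ w ∈ R, w ≠ u → (y w = true ↔ Ev P y w) := fun w hw hwu =>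
    hy2 w (Finset.mem_erase.2 ⟨hwu, hw⟩)
  by_cases hev : Ev P y u
  · refine ⟨y, hyo, fun w hw => ?_⟩
    by_cases hwu : w = u
    · subst hwu
      simp [hyu, hev]
    · exact hyR w hw hwu
  -- the failing set
  let F : Finset α := R.filter (fun v => ∃ k, v ∈ Fl P R y u k)
  have hFR : F ⊆ R := Finset.filter_subset _ _
  have huF : u ∈ F := Finset.mem_filter.2 ⟨hu, 0, by simp [Fl]⟩
  by_cases hFeq : F = R
  swap
  · -- a self-supporting part
    obtain ⟨z, hz1, hz2⟩ := IH F.card
      (by rw [← hR]; exact Finset.card_lt_card (lt_of_le_of_ne hFR hFeq)) F rfl y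
    refine ⟨z, fun w hw => ?_, fun w hw => ?_⟩
    · rw [hz1 w (fun h => hw (hFR h)), hyo w hw]
    · by_cases hwF : w ∈ F
      · exact hz2 w hwF
      · have hwu : w ≠ u := fun h => hwF (h ▸ huF)
        have hw0 := hyR w hw hwu
        rw [hz1 w hwF]
        rw [hw0]
        have hnF : ∀ k, w ∉ Fl P R y u k := fun k hk => hwF (Finset.mem_filter.2 ⟨hw, k, hk⟩)
        cases hyw : y w with
        | true =>
          have hev' := hw0.1 hyw
          have hin : ∀ b, PosArc P b w ∨ NegArc P b w → b ∉ F := by
            intro b hb hbF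
            obtain ⟨k, hk⟩ := (Finset.mem_filter.1 hbF).2
            exact hnF (k + 1) (Or.inr ⟨hw, Or.inl ⟨hyw, b, hk, hb⟩⟩)
          refine ⟨fun _ => ?_, fun _ => hev'⟩
          obtain ⟨h1, r, hr, hrw, hb, hc⟩ := hev'
          refine ⟨h1, r, hr, hrw, fun b hb' => ?_, fun c hc' => ?_⟩
          · rw [hz1 b (hin b (Or.inl ⟨r, hr, hrw, hb'⟩))]
            exact hb b hb'
          · rw [hz1 c (hin c (Or.inr ⟨r, hr, hrw, hc'⟩))]
            exact hc c hc'
        | false =>
          have hnev : ¬ Ev P y w := fun h => by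
            have := hw0.2 h
            rw [hyw] at this
            exact absurd this (by decide)
          refine ⟨fun h => absurd h hnev, fun h => ?_⟩
          exfalso
          -- a false literal outside `F`
          have hex : ∃ a, FL P y a w ∧ a ∉ F := by
            by_contra hcon
            push Not at hcon
            have hall : ∀ a : {a // FL P y a w}, ∃ k, a.1 ∈ Fl P R y u k := fun a =>
              (Finset.mem_filter.1 (hcon a.1 a.2)).2
            choose k hk using hall
            have _ : Fintype {a // FL P y a w} := Fintype.ofFinite _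
            let K := Finset.univ.sup k
            refine hnF (K + 1) (Or.inr ⟨hw, Or.inr ⟨hyw, fun a ha => ?_⟩⟩)
            exact fl_mono P R y u (Finset.le_sup (f := k) (Finset.mem_univ ⟨a, ha⟩)) (hk ⟨a, ha⟩)
          obtain ⟨a, ha, haF⟩ := hex
          have ha' : FL P z a w := by
            rcases ha with ⟨h1, h2⟩ | ⟨h1, h2⟩
            · exact Or.inl ⟨h1, by rw [hz1 a haF, h2]⟩
            · exact Or.inr ⟨h1, by rw [hz1 a haF, h2]⟩
          exact ev_no_fl hP h a ha'
  -- everything fails: an odd cycle without internal delocalizing triple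
  exfalso
  have hFk : ∀ v ∈ R, ∃ k, v ∈ Fl P R y u k := fun v hv => by
    rw [← hFeq] at hv
    exact (Finset.mem_filter.1 hv).2
  let ρ : α → ℕ := fun v => if h : ∃ k, v ∈ Fl P R y u k then Nat.find h else 0
  have hρ : ∀ v (h : ∃ k, v ∈ Fl P R y u k), v ∈ Fl P R y u (ρ v) := by
    intro v h
    simp only [ρ, h, dif_pos]
    exact Nat.find_spec h
  have hρmin : ∀ v k, v ∈ Fl P R y u k → ρ v ≤ k := by
    intro v k hk
    have h : ∃ k, v ∈ Fl P R y u k := ⟨k, hk⟩
    simp only [ρ, h, dif_pos]
    exact Nat.find_min' h hk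
  have hρu : ρ u = 0 := Nat.le_zero.1 (hρmin u 0 (by simp [Fl]))
  -- false literals have smaller rank
  have hfl : ∀ v ∈ R, v ≠ u → y v = false → ∀ w, FL P y w v → w ∈ R ∧ ρ w < ρ v := by
    intro v hv hvu hyv w hw
    have hv' := hρ v (hFk v hv)
    have hpos : ρ v ≠ 0 := by
      intro h0
      rw [h0] at hv'
      exact hvu (by simpa [Fl] using hv')
    obtain ⟨k, hk⟩ := Nat.exists_eq_succ_of_ne_zero hpos
    rw [hk] at hv'
    rcases hv' with h | h
    · have := hρmin v k h
      omega
    · rcases h.2 with h' | h'
      · rw [hyv] at h'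
        exact absurd h'.1 (by decide)
      · have hwk := h'.2 w hw
        exact ⟨fl_sub P R y u hu k hwk, by have := hρmin w k hwk; omega⟩
  -- every vertex other than `u` has a tight in-neighbour of smaller rank
  have htight : ∀ v ∈ R, v ≠ u → ∃ w ∈ R, T P y ρ w v := by
    intro v hv hvu
    cases hyv : y v with
    | false =>
      have hnev : ¬ Ev P y v := fun h => by
        have := (hyR v hv hvu).2 h
        rw [hyv] at this
        exact absurd this (by decide)
      obtain ⟨w, hw⟩ := not_ev (hconst v hv).1 (hconst v hv).2.1 hnev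
      obtain ⟨h1, h2⟩ := hfl v hv hvu hyv w hw
      refine ⟨w, h1, h2, ?_⟩
      rcases hw with ⟨h3, h4⟩ | ⟨h3, h4⟩
      · exact Or.inl ⟨h3, by rw [h4, hyv]⟩
      · exact Or.inr ⟨h3, by rw [h4, hyv]; decide⟩
    | true =>
      have hev' := (hyR v hv hvu).1 hyv
      have hv' := hρ v (hFk v hv)
      have hpos : ρ v ≠ 0 := by
        intro h0
        rw [h0] at hv'
        exact hvu (by simpa [Fl] using hv')
      obtain ⟨k, hk⟩ := Nat.exists_eq_succ_of_ne_zero hpos
      rw [hk] at hv'
      rcases hv' with h | h
      · have := hρmin v k h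
        omega
      · rcases h.2 with h' | h'
        · obtain ⟨_, w, hwk, hw⟩ := h'
          refine ⟨w, fl_sub P R y u hu k hwk, by have := hρmin w k hwk; omega, ?_⟩
          have hnofl := ev_no_fl hP hev' w
          rcases hw with hw | hw
          · refine Or.inl ⟨hw, ?_⟩
            rw [hyv]
            by_contra hcon
            exact hnofl (Or.inl ⟨hw, by simpa using hcon⟩)
          · refine Or.inr ⟨hw, ?_⟩
            rw [hyv]
            intro hcon
            exact hnofl (Or.inr ⟨hw, hcon⟩)
        · rw [hyv] at h'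
          exact absurd h'.1 (by decide)
  -- paths from `u`
  have hpath : ∀ N, ∀ v ∈ R, ρ v = N → ∃ k c, Pth P y ρ R u k c ∧ c k = v := by
    intro N
    induction N using Nat.strong_induction_on with
    | _ N ihN =>
    intro v hv hvN
    by_cases hvu : v = u
    · subst hvu
      exact ⟨0, fun _ => v, ⟨rfl, fun i _ => hv, fun i hi => absurd hi (by omega)⟩, rfl⟩
    · obtain ⟨w, hw, hT⟩ := htight v hv hvu
      obtain ⟨k, c, hc, hck⟩ := ihN (ρ w) (by rw [← hvN]; exact hT.1) w hw rfl
      refine ⟨k + 1, fun t => if t ≤ k then c t else v, ⟨?_, ?_, ?_⟩, ?_⟩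
      · simp [hc.1]
      · intro i hi
        by_cases h : i ≤ k
        · simpa only [h, if_true] using hc.2.1 i h
        · simpa only [h, if_false] using hv
      · intro i hi
        by_cases h : i < k
        · have e1 : i ≤ k := h.le
          have e2 : i + 1 ≤ k := h
          simp only [e1, e2, if_true]
          exact hc.2.2 i h
        · have e0 : i = k := by omega
          subst e0
          have e2 : ¬ (i + 1 ≤ i) := by omega
          simp only [le_refl, e2, if_true, if_false]
          rw [hck]
          exact hT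
      · have e2 : ¬ (k + 1 ≤ k) := by omega
        simp only [e2, if_false]
  -- a shortest path to a false literal of `u`
  have hgoal : ∃ k c, Pth P y ρ R u k c ∧ FL P y (c k) u := by
    obtain ⟨w, hw⟩ := not_ev (hconst u hu).1 (hconst u hu).2.1 hev
    have hwR : w ∈ R := by
      by_contra hwR
      apply (hconst u hu).2.2 w hwR
      rcases hw with ⟨h3, h4⟩ | ⟨h3, h4⟩
      · exact Or.inl ⟨h3, by rw [← hyo w hwR, h4]⟩
      · exact Or.inr ⟨h3, by rw [← hyo w hwR, h4]⟩
    obtain ⟨k, c, hc, hck⟩ := hpath (ρ w) w hwR rfl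
    exact ⟨k, c, hc, by rw [hck]; exact hw⟩
  let k := Nat.find hgoal
  obtain ⟨c, hc, hck⟩ : ∃ c, Pth P y ρ R u k c ∧ FL P y (c k) u := Nat.find_spec hgoal
  have hmin : ∀ k' < k, ∀ c', Pth P y ρ R u k' c' → ¬ FL P y (c' k') u := by
    intro k' hk' c' h1 h2
    exact Nat.find_min hgoal hk' ⟨c', h1, h2⟩
  have hinjc : ∀ i ≤ k, ∀ j ≤ k, c i = c j → i = j := by
    intro i hi j hj hij
    rcases lt_trichotomy i j with h | h | h
    · have := pth_rank hc h hj
      rw [hij] at this
      exact absurd this (lt_irrefl _)
    · exact h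
    · have := pth_rank hc h hi
      rw [hij] at this
      exact absurd this (lt_irrefl _)
  have hc0 : ∀ j ≤ k, j ≠ 0 → c j ≠ u := by
    intro j hj hj0 h
    rw [← hc.1] at h
    exact hj0 (hinjc j hj 0 (Nat.zero_le _) h)
  -- a false-literal arc inside the path is an arc of the cycle
  let d : ℕ → α := fun i => if i ≤ k then c i else u
  let s : ℕ → Bool := fun i => if i < k then decide (y (c i) ≠ y (c (i + 1))) else y (c k)
  have hd : ∀ i ≤ k, d i = c i := fun i hi => by simp [d, hi]
  have hdk : d (k + 1) = u := by simp [d]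
  have hcyc : IsCycle P (k + 1) d s := by
    refine ⟨Nat.succ_pos _, ?_, ?_, ?_⟩
    · intro i hi j hj hij
      simp only [Set.mem_Iio] at hi hj
      rw [hd i (by omega), hd j (by omega)] at hij
      exact hinjc i (by omega) j (by omega) hij
    · rw [hdk, hd 0 (Nat.zero_le _), hc.1]
    · intro i hi
      by_cases hik : i < k
      · rw [hd i hik.le, hd (i + 1) hik]
        simp only [s, hik, if_true]
        have hT := (hc.2.2 i hik).2
        by_cases hy : y (c i) = y (c (i + 1))
        · simp only [ne_eq, hy, not_true_eq_false, decide_false, Bool.false_eq_true, if_false]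
          rcases hT with h | h
          · exact h.1
          · exact absurd hy h.2
        · simp only [ne_eq, hy, not_false_eq_true, decide_true, if_true]
          rcases hT with h | h
          · exact absurd h.2 hy
          · exact h.1
      · have hik' : i = k := by omega
        subst hik'
        rw [hd k le_rfl, hdk]
        simp only [s, lt_irrefl, if_false]
        rcases hck with h | h
        · simp only [h.2, Bool.false_eq_true, if_false]
          exact h.1
        · simp only [h.2, if_true]
          exact h.1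
  have hodd : IsOdd (k + 1) s := by
    unfold IsOdd
    rw [Finset.range_add_one, Finset.filter_insert]
    have hpar := parity (fun i => y (c i)) k
    have hfil : (Finset.range k).filter (fun i => s i = true) =
        (Finset.range k).filter (fun i => decide (y (c i) ≠ y (c (i + 1))) = true) := by
      refine Finset.filter_congr fun i hi => ?_
      have : i < k := Finset.mem_range.1 hi
      simp only [s, this, if_true]
    have hsk : s k = y (c k) := by simp [s]
    have hy0 : y (c 0) = true := by rw [hc.1, hyu]
    simp only [hy0] at hpar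
    by_cases hyk : y (c k) = true
    · rw [if_pos (by rw [hsk, hyk]), Finset.card_insert_of_notMem (by simp), hfil]
      exact (hpar.2 hyk).add_one
    · rw [if_neg (by rw [hsk]; exact hyk), hfil]
      rw [← Nat.not_even_iff_odd]
      exact fun h => hyk (hpar.1 h)
  obtain ⟨a, v₁, v₂, hne, ⟨i, hi, hia⟩, ⟨j, hj, hjv⟩, ⟨l, hl, hlv⟩, hp, hpE, hn, hnE⟩ :=
    hC (k + 1) d s hcyc hodd
  rw [hd i (by omega)] at hia
  rw [hd j (by omega)] at hjv
  rw [hd l (by omega)] at hlv
  subst hia hjv hlv
  -- the common argument
  have key : ∀ t ≤ k, FL P y (c i) (c t) → InCycle (k + 1) d s (c i) (c t) (y (c i)) := by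
    intro t ht hfla
    have hik : i ≤ k := by omega
    by_cases ht0 : t = 0
    · subst ht0
      rw [hc.1] at hfla
      have hik' : i = k := by
        by_contra hcon
        refine hmin i (by omega) c ⟨hc.1, fun b hb => hc.2.1 b (by omega),
          fun b hb => hc.2.2 b (by omega)⟩ hfla
      refine ⟨k, Nat.lt_succ_self _, ?_, ?_, ?_⟩
      · rw [hd k le_rfl, hik']
      · rw [hdk, hc.1]
      · simp [s, hik']
    · have htu := hc0 t ht ht0
      have htR := hc.2.1 t ht
      have hyt : y (c t) = false := by
        by_contra hcon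
        have hcon' : y (c t) = true := by simpa using hcon
        exact ev_no_fl hP ((hyR (c t) htR htu).1 hcon') (c i) hfla
      have hrk := (hfl (c t) htR htu hyt (c i) hfla).2
      have hit : i < t := by
        by_contra hcon
        rcases Nat.lt_or_ge t i with h | h
        · have := pth_rank hc h hik
          omega
        · have : i = t := by omega
          subst this
          exact absurd hrk (lt_irrefl _)
      have hTT : T P y ρ (c i) (c t) := by
        refine ⟨hrk, ?_⟩
        rcases hfla with ⟨h3, h4⟩ | ⟨h3, h4⟩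
        · exact Or.inl ⟨h3, by rw [h4, hyt]⟩
        · exact Or.inr ⟨h3, by rw [h4, hyt]; decide⟩
      by_cases hit' : t = i + 1
      · subst hit'
        refine ⟨i, by omega, hd i hik, hd (i + 1) ht, ?_⟩
        have : i < k := by omega
        simp only [s, this, if_true, hyt]
        cases y (c i) <;> decide
      · exfalso
        obtain ⟨k', hk', c', hc', hck'⟩ := shortcut hc (i := i) (j := t) (by omega) ht hTT
        refine hmin k' hk' c' hc' ?_
        rw [hck']
        exact hck
  cases hyi : y (c i) with
  | true =>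
    have := key l (by omega) (Or.inr ⟨hn, hyi⟩)
    rw [hyi] at this
    exact hnE this
  | false =>
    have := key j (by omega) (Or.inl ⟨hp, hyi⟩)
    rw [hyi] at this
    exact hpE this

/-- **Theorem.**  Let `P` be a uni-rule program over a finite set of atoms such that every odd
cycle of the atom dependency graph has an internal delocalizing triple.  Then `P` has a stable
model. -/
theorem result (P : Set (Rule α)) (hP : UniRule P)
    (hC : ∀ (n : ℕ) (c : ℕ → α) (s : ℕ → Bool), IsCycle P n c s → IsOdd n s →
      HasInternalTriple P n c s) :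
    ∃ M : Set α, Stable P M := by
  obtain ⟨y, _, hy⟩ := fixed P hP hC _ Finset.univ rfl (fun _ => false)
  have hy' : ∀ v, y v = true ↔ Ev P y v := fun v => hy v (Finset.mem_univ v)
  refine ⟨{v | y v = true}, ?_, ?_⟩
  · intro r hr hneg hpos
    show y r.head = true
    rw [hy']
    by_cases hz : r.head ∈ Zer P
    · exfalso
      have hz' : ¬ Acc (PosArc P) r.head := hz
      apply hz'
      refine Acc.intro _ fun b hb => ?_
      obtain ⟨r', hr', hh, hb'⟩ := hb
      have := hP r' hr' r hr hh
      subst this
      have h1 : y b = true := hpos b hb'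
      by_contra hcon
      exact ((hy' b).1 h1).1 hcon
    · refine ⟨hz, r, hr, rfl, fun b hb => hpos b hb, fun c hc => ?_⟩
      have : ¬ y c = true := hneg c hc
      simpa using this
  · intro N hN v hv
    have hacc : ∀ v, Acc (PosArc P) v → y v = true → v ∈ N := by
      intro v hv
      induction hv with
      | intro v _ ih =>
        intro hyv
        obtain ⟨_, r, hr, hrv, hb, hc⟩ := (hy' v).1 hyv
        rw [← hrv]
        refine hN r hr (fun c hc' => ?_) (fun b hb' => ih b ⟨r, hr, hrv, hb'⟩ (hb b hb'))
        show ¬ y c = true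
        rw [hc c hc']
        decide
    have hv' : y v = true := hv
    refine hacc v ?_ hv'
    by_contra hcon
    exact ((hy' v).1 hv').1 hcon

end Main

end Pool.Agent.Results.MP_d24a2a_lc.UniRuleStable
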